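import Pool.Agent.Work.MP_46fa68_6.GapOne
import Pool.Agent.Work.MP_46fa68_28.Cross
import Pool.Agent.Work.MP_46fa68_h4.OB5

/-!
# MP_46fa68_co: the two-class certificate on `n - 1` points (helper52's P5, helper16's note 2180)

`A` is `t`-intersecting on `N + 1` points, `N = k + t`, so `(N + 1 - t)! = (k + 1)!`.  `Q` = members through the cell
`(0, 0)` seen on `N` points; the others are fibred over permutations `π` of `N` points, `W π` = marks.  `Q` is
`(t - 1)`-intersecting, the fibres are `(t - 1)`-intersecting and cross `t`-intersecting with `Q`; a fibre with more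
than `k` marks is cross `(t + 1)`-intersecting with `Q`.  A fibre gets the weight `min (marks) k / k`.  Class
functions `a` (on `Q × Q`), `b` (on `Q ×` fibres), `c` (fibres × fibres) with `0 ≤ a, c`, `b^2 ≤ a c` on all shapes.
-/

set_option autoImplicit false

open Finset Equiv

namespace Pool.TW

open Pool.JM Pool.OS

/-- a nonnegative binary form -/
theorem form_nonneg {p q r x y : ℝ} (hp : 0 ≤ p) (hr : 0 ≤ r) (h : q ^ 2 ≤ p * r) :
    0 ≤ p * (x * x) + 2 * (q * (x * y)) + r * (y * y) := by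
  rcases eq_or_lt_of_le hp with h0 | h0
  · have hq : q = 0 := by
      rw [← h0, zero_mul] at h
      exact (pow_eq_zero_iff two_ne_zero).1 (le_antisymm h (sq_nonneg q))
    rw [hq, ← h0]
    have := mul_nonneg hr (mul_self_nonneg y)
    linarith
  · have e : p * (p * (x * x) + 2 * (q * (x * y)) + r * (y * y)) =
        (p * x + q * y) ^ 2 + (p * r - q ^ 2) * (y * y) := by ring
    have h1 : 0 ≤ p * (p * (x * x) + 2 * (q * (x * y)) + r * (y * y)) := by
      rw [e]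
      exact add_nonneg (sq_nonneg _) (mul_nonneg (by linarith) (mul_self_nonneg y))
    exact nonneg_of_mul_nonneg_right h1 h0

variable {n M : ℕ}

/-- the quadratic form of a two-class kernel -/
theorem quad_two (hM : n + 1 < M) {a b c : Finset ℕ → ℝ}
    (ha : ∀ B ∈ Lv M (n + 1), 0 ≤ a B) (hc : ∀ B ∈ Lv M (n + 1), 0 ≤ c B)
    (hab : ∀ B ∈ Lv M (n + 1), b B ^ 2 ≤ a B * c B) (x y : Perm (Fin (n + 1)) → ℝ) :
    0 ≤ qf (n + 1) M a x x + 2 * qf (n + 1) M b x y + qf (n + 1) M c y y := by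
  rw [qf_eq hM, qf_eq hM, qf_eq hM, Finset.mul_sum, ← Finset.sum_add_distrib,
    ← Finset.sum_add_distrib]
  refine Finset.sum_nonneg fun B hB => ?_
  simp only [dotProduct]
  rw [Finset.mul_sum, Finset.mul_sum, Finset.mul_sum, Finset.mul_sum, ← Finset.sum_add_distrib,
    ← Finset.sum_add_distrib]
  refine Finset.sum_nonneg fun σ _ => ?_
  exact form_nonneg (ha B hB) (hc B hB) (hab B hB)

/-- the quadratic form on nonnegative weights -/
theorem qf_weights {N : ℕ} (c : Finset ℕ → ℝ) (x y : Perm (Fin N) → ℝ) (hx : ∀ π, 0 ≤ x π)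
    (hy : ∀ π, 0 ≤ y π) (r0 s : ℝ)
    (h : ∀ σ τ, x σ ≠ 0 → y τ ≠ 0 → G N M c N σ τ ≤ (if σ = τ then r0 else 0) - s) :
    qf N M c x y ≤ r0 * (∑ σ, x σ * y σ) - s * ((∑ σ, x σ) * ∑ σ, y σ) := by
  unfold qf
  simp only [dotProduct, Matrix.mulVec]
  calc ∑ σ, x σ * ∑ τ, G N M c N σ τ * y τ ≤
      ∑ σ, x σ * ∑ τ, ((if σ = τ then r0 else 0) - s) * y τ := by
        refine Finset.sum_le_sum fun σ _ => ?_
        rcases eq_or_ne (x σ) 0 with h0 | h0
        · rw [h0, zero_mul, zero_mul]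
        refine mul_le_mul_of_nonneg_left (Finset.sum_le_sum fun τ _ => ?_) (hx σ)
        rcases eq_or_ne (y τ) 0 with h1 | h1
        · rw [h1, mul_zero, mul_zero]
        exact mul_le_mul_of_nonneg_right (h σ τ h0 h1) (hy τ)
    _ = _ := by
        have e : ∀ σ, ∑ τ, ((if σ = τ then r0 else 0) - s) * y τ = r0 * y σ - s * ∑ τ, y τ := by
          intro σ
          simp only [sub_mul, Finset.sum_sub_distrib, ite_mul, zero_mul, Finset.sum_ite_eq, mem_univ,
            if_true, Finset.mul_sum]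
        have e1 : ∑ σ, x σ * (r0 * y σ) = r0 * ∑ σ, x σ * y σ := by
          rw [Finset.mul_sum]
          exact Finset.sum_congr rfl fun σ _ => by ring
        have e2 : ∑ σ, x σ * (s * ∑ τ, y τ) = s * ((∑ σ, x σ) * ∑ τ, y τ) := by
          rw [← Finset.sum_mul]
          ring
        simp only [e, mul_sub, Finset.sum_sub_distrib]
        rw [e1, e2]

theorem sum_vec {N : ℕ} (A : Finset (Perm (Fin N))) : ∑ σ, vec A σ = (A.card : ℝ) := by
  simp [vec]

theorem sum_vec_mul {N : ℕ} (A : Finset (Perm (Fin N))) :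
    ∑ σ, vec A σ * vec A σ = (A.card : ℝ) := by
  simp [vec]

theorem vec_nonneg {N : ℕ} (A : Finset (Perm (Fin N))) (σ : Perm (Fin N)) : 0 ≤ vec A σ := by
  unfold vec
  split_ifs <;> norm_num

theorem vec_le_one {N : ℕ} (A : Finset (Perm (Fin N))) (σ : Perm (Fin N)) : vec A σ ≤ 1 := by
  unfold vec
  split_ifs <;> norm_num

theorem mem_of_vec {N : ℕ} {A : Finset (Perm (Fin N))} {σ : Perm (Fin N)} (h : vec A σ ≠ 0) :
    σ ∈ A := by
  by_contra h'
  exact h (if_neg h')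

variable {t k : ℕ}

/-- same mark: one more agreement -/
theorem ag_mk_same {N : ℕ} (w : Fin N) (π ρ : Perm (Fin N)) : ag (OS.mk w π) (OS.mk w ρ) = ag π ρ + 1 := by
  unfold ag OS.mk
  rw [Fin.card_filter_univ_succ]
  simp only [Equiv.Perm.decomposeFin_symm_apply_zero, if_true,
    Equiv.Perm.decomposeFin_symm_apply_succ, EmbeddingLike.apply_eq_iff_eq, Fin.succ_inj]

/-- two fibres agree in `t - 1` places -/
theorem ag_fibres {N : ℕ} (A : Finset (Perm (Fin (N + 1)))) (hA : ∀ σ ∈ A, ∀ τ ∈ A, t ≤ ag σ τ)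
    {π ρ : Perm (Fin N)} (hπ : 1 ≤ (Ws A π).card) (hρ : 1 ≤ (Ws A ρ).card) : t ≤ ag π ρ + 1 := by
  obtain ⟨w, hw⟩ := card_pos.1 hπ
  obtain ⟨w', hw'⟩ := card_pos.1 hρ
  rcases eq_or_ne w w' with h | h
  · have h1 := hA _ (mem_filter.1 hw).2 _ (mem_filter.1 hw').2
    rw [← h, ag_mk_same] at h1
    exact h1
  · have h1 := (fib A hA).hW π ρ w hw w' hw' h
    rw [ag_eq_cols]
    have h2 : (((cols π ρ).erase w).erase w').card ≤ (cols π ρ).card :=
      card_le_card ((erase_subset _ _).trans (erase_subset _ _))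
    split_ifs at h1 <;> omega

/-- the members through the cell agree in `t - 1` places -/
theorem ag_Qs {N : ℕ} (A : Finset (Perm (Fin (N + 1)))) (hA : ∀ σ ∈ A, ∀ τ ∈ A, t ≤ ag σ τ)
    {π ρ : Perm (Fin N)} (hπ : π ∈ Qs A) (hρ : ρ ∈ Qs A) : t ≤ ag π ρ + 1 := by
  have h1 := hA _ (mem_filter.1 hπ).2 _ (mem_filter.1 hρ).2
  unfold ag at h1 ⊢
  rw [ND.agr_ext] at h1
  exact h1

/-- the weight of a fibre -/
noncomputable def wt {N : ℕ} (k : ℕ) (W : Perm (Fin N) → Finset (Fin N)) (π : Perm (Fin N)) : ℝ :=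
  ((min (W π).card k : ℕ) : ℝ) / k

theorem wt_nonneg {N : ℕ} (k : ℕ) (W : Perm (Fin N) → Finset (Fin N)) (π : Perm (Fin N)) :
    0 ≤ wt k W π := div_nonneg (Nat.cast_nonneg _) (Nat.cast_nonneg _)

theorem wt_le {N : ℕ} (k : ℕ) (W : Perm (Fin N) → Finset (Fin N)) (π : Perm (Fin N)) :
    wt k W π ≤ 1 := by
  refine div_le_one_of_le₀ ?_ (Nat.cast_nonneg _)
  exact_mod_cast min_le_right _ _

theorem pos_of_wt {N : ℕ} {k : ℕ} {W : Perm (Fin N) → Finset (Fin N)} {π : Perm (Fin N)}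
    (h : wt k W π ≠ 0) : 1 ≤ (W π).card := by
  by_contra h'
  apply h
  have : (W π).card = 0 := by omega
  unfold wt
  rw [this, Nat.zero_min, Nat.cast_zero, zero_div]

/-- the truncated number of members off the cell -/
def off {N : ℕ} (k : ℕ) (A : Finset (Perm (Fin (N + 1)))) : ℕ := ∑ π, min (Ws A π).card k

/-- the inequality of a two-class certificate -/
def TC (n k t : ℕ) (W1 s11 s12 W2 s22 : ℝ) : Prop :=
  ∀ A : Finset (Perm (Fin (n + 1 + 1))), (∀ σ ∈ A, ∀ τ ∈ A, t ≤ ag σ τ) →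
    0 ≤ (W1 * ((Qs A).card : ℝ) + W2 * (off k A : ℝ)) -
      (s11 * ((Qs A).card : ℝ) ^ 2 + 2 * s12 * ((Qs A).card : ℝ) * (off k A : ℝ) +
        s22 * (off k A : ℝ) ^ 2) / (k + 1).factorial

/-- **The two-class certificate.** -/
theorem two_class (hN : n + 1 = k + t) (hk : k + 1 ≤ n) (hk1 : 1 ≤ k) (hM : n + 1 < M)
    (a b c : Finset ℕ → ℝ) (p0 s11 q0 s12 r0 s22 : ℝ)
    (ha1 : Harm M (k + 1) (n + 1) a) (ha2 : Val (n + 1) M (k + 1) a p0 s11)
    (hb1 : Harm M k (n + 1) b) (hb2 : Val (n + 1) M k b q0 s12) (hq0 : 0 ≤ q0)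
    (hc1 : Harm M (k + 1) (n + 1) c) (hc2 : Val (n + 1) M (k + 1) c r0 s22) (hr0 : 0 ≤ r0)
    (ha : ∀ B ∈ Lv M (n + 1), 0 ≤ a B) (hc : ∀ B ∈ Lv M (n + 1), 0 ≤ c B)
    (hab : ∀ B ∈ Lv M (n + 1), b B ^ 2 ≤ a B * c B) :
    TC n k t p0 s11 (s12 * (k + 1) / k) ((r0 + 2 * q0) / k) (s22 / k ^ 2) := by
  intro A hA
  have hk0 : (0 : ℝ) < k := by exact_mod_cast (show 0 < k by omega)
  have hF := fac_pos k
  have hfac : (((k + 1).factorial : ℕ) : ℝ) = ((k : ℝ) + 1) * k.factorial := by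
    rw [Nat.factorial_succ]
    push_cast
    ring
  set X : ℝ := ((Qs A).card : ℝ) with hX
  set Y : ℝ := (off k A : ℝ) with hY
  have hsw : ∑ π, wt k (Ws A) π = Y / k := by
    unfold wt
    rw [← Finset.sum_div, hY]
    unfold off
    rw [Nat.cast_sum]
  have hq := quad_two hM ha hc hab (vec (Qs A)) (wt k (Ws A))
  have h1 : qf (n + 1) M a (vec (Qs A)) (vec (Qs A)) ≤
      p0 * X - s11 / (k + 1).factorial * (X * X) := by
    have := qf_weights (M := M) a (vec (Qs A)) (vec (Qs A)) (vec_nonneg _) (vec_nonneg _) p0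
      (s11 / (k + 1).factorial) (fun σ τ hσ hτ => pair_le hM hk (Or.inr rfl) a p0 s11 ha1 ha2
        (fun h => by omega) (by
          have := ag_Qs A hA (mem_of_vec hσ) (mem_of_vec hτ)
          unfold ag at this
          omega))
    rwa [sum_vec, sum_vec_mul] at this
  have h2 : qf (n + 1) M b (vec (Qs A)) (wt k (Ws A)) ≤
      q0 * (Y / k) - s12 / k.factorial * (X * (Y / k)) := by
    have h := qf_weights (M := M) b (vec (Qs A)) (wt k (Ws A)) (vec_nonneg _) (wt_nonneg _ _) q0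
      (s12 / k.factorial) (fun σ τ hσ hτ => pair_le hM (by omega : k ≤ n) (Or.inr rfl) b q0 s12
        hb1 hb2 (fun h => by omega) (by
            have := (fib A hA).cross (mem_of_vec hσ) (pos_of_wt hτ)
            unfold ag at this
            omega))
    rw [sum_vec, hsw] at h
    refine h.trans ?_
    have h4 : ∑ π, vec (Qs A) π * wt k (Ws A) π ≤ Y / k := by
      rw [← hsw]
      refine Finset.sum_le_sum fun π _ => ?_
      exact mul_le_of_le_one_left (wt_nonneg _ _ _) (vec_le_one _ _)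
    have := mul_le_mul_of_nonneg_left h4 hq0
    linarith
  have h3 : qf (n + 1) M c (wt k (Ws A)) (wt k (Ws A)) ≤
      r0 * (Y / k) - s22 / (k + 1).factorial * ((Y / k) * (Y / k)) := by
    have h := qf_weights (M := M) c (wt k (Ws A)) (wt k (Ws A)) (wt_nonneg _ _) (wt_nonneg _ _) r0
      (s22 / (k + 1).factorial) (fun σ τ hσ hτ => pair_le hM hk (Or.inr rfl) c r0 s22 hc1 hc2
        (fun h => by omega) (by
          have := ag_fibres A hA (pos_of_wt hσ) (pos_of_wt hτ)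
          unfold ag at this
          omega))
    rw [hsw] at h
    refine h.trans ?_
    have h4 : ∑ π, wt k (Ws A) π * wt k (Ws A) π ≤ Y / k := by
      rw [← hsw]
      refine Finset.sum_le_sum fun π _ => ?_
      exact mul_le_of_le_one_right (wt_nonneg _ _ _) (wt_le _ _ _)
    have := mul_le_mul_of_nonneg_left h4 hr0
    linarith
  have e : (p0 * X + (r0 + 2 * q0) / k * Y) - (s11 * X ^ 2 + 2 * (s12 * (k + 1) / k) * X * Y +
      s22 / k ^ 2 * Y ^ 2) / (k + 1).factorial =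
      (p0 * X - s11 / (k + 1).factorial * (X * X)) +
      2 * (q0 * (Y / k) - s12 / k.factorial * (X * (Y / k))) +
      (r0 * (Y / k) - s22 / (k + 1).factorial * ((Y / k) * (Y / k))) := by
    rw [hfac]
    field_simp
    ring
  rw [e]
  linarith

/-- the total number of members off the cell -/
theorem card_off {N : ℕ} (hN : N = k + t) (A : Finset (Perm (Fin (N + 1)))) :
    A.card ≤ (Qs A).card + (off k A + t * (Bp k (Ws A)).card) := by
  rw [card_eq A]
  refine Nat.add_le_add_left ?_ _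
  unfold off Bp
  have h : ∀ π : Perm (Fin N), (Ws A π).card ≤ min (Ws A π).card k +
      (if k + 1 ≤ (Ws A π).card then t else 0) := by
    intro π
    have h1 : (Ws A π).card ≤ N := (card_le_univ _).trans (by rw [Fintype.card_fin])
    split_ifs <;> omega
  refine (Finset.sum_le_sum fun π _ => h π).trans (le_of_eq ?_)
  rw [Finset.sum_add_distrib, ← Finset.sum_filter, Finset.sum_const, smul_eq_mul, mul_comm t]

theorem off_le {N : ℕ} (A : Finset (Perm (Fin (N + 1)))) : (Qs A).card + off k A ≤ A.card := by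
  rw [card_eq A]
  refine Nat.add_le_add_left ?_ _
  unfold off
  exact Finset.sum_le_sum fun π _ => min_le_left _ _

/-- cross bound for the fibres with more than `k` marks: `|Q||B| ≤ C (k+1)!^2` if `Q`, `B` on `N` points are cross
`s`-intersecting -/
def CB (N s : ℕ) (X : ℝ) : Prop :=
  ∀ Q B : Finset (Perm (Fin N)), (∀ σ ∈ Q, ∀ τ ∈ B, s ≤ ag σ τ) → (Q.card : ℝ) * B.card ≤ X

/-- the cross bound from a harmonic function -/
theorem CB_of {N m : ℕ} (hM : N < M) (hm : m ≤ N) (v : Finset ℕ → ℝ) (c : ℝ)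
    (h1 : Harm M m N v) (h2 : ∀ C ∈ Lv M m, v C = if C = Rw M m then 1 else 0)
    (h3 : ∀ B ∈ Lv M N, |v B| ≤ c) : CB N (N - m) ((c * m.factorial) ^ 2) := by
  intro Q B h
  exact cross_bound hM hm v c h1 h2 h3 Q B h

/-- concavity: a quadratic inequality at the ends of an interval holds inside -/
theorem interval {W1 s11 s12 W2 s22 θ l r p : ℝ} (hθ : 0 ≤ θ) (hconc : s11 + s22 ≤ 2 * s12)
    (hlp : l ≤ p) (hpr : p ≤ r)
    (hl : W1 * l + W2 * (1 - l) < θ * (s11 * l ^ 2 + 2 * s12 * l * (1 - l) + s22 * (1 - l) ^ 2))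
    (hr : W1 * r + W2 * (1 - r) < θ * (s11 * r ^ 2 + 2 * s12 * r * (1 - r) + s22 * (1 - r) ^ 2)) :
    W1 * p + W2 * (1 - p) <
      θ * (s11 * p ^ 2 + 2 * s12 * p * (1 - p) + s22 * (1 - p) ^ 2) := by
  rcases eq_or_lt_of_le (hlp.trans hpr) with heq | hlt
  · have : p = l := le_antisymm (by rw [heq]; exact hpr) hlp
    rw [this]
    exact hl
  · have h8 : 0 < r - l := by linarith
    have e1 : (r - l) * (θ * (s11 * p ^ 2 + 2 * s12 * p * (1 - p) + s22 * (1 - p) ^ 2) -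
        (W1 * p + W2 * (1 - p))) = (r - p) * (θ * (s11 * l ^ 2 + 2 * s12 * l * (1 - l) +
          s22 * (1 - l) ^ 2) - (W1 * l + W2 * (1 - l))) + (p - l) * (θ * (s11 * r ^ 2 +
          2 * s12 * r * (1 - r) + s22 * (1 - r) ^ 2) - (W1 * r + W2 * (1 - r))) +
          θ * (2 * s12 - s11 - s22) * ((p - l) * (r - p) * (r - l)) := by
        ring
    have h3 : 0 ≤ (r - p) * (θ * (s11 * l ^ 2 + 2 * s12 * l * (1 - l) +
        s22 * (1 - l) ^ 2) - (W1 * l + W2 * (1 - l))) :=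
      mul_nonneg (by linarith) (by linarith)
    have h4 : 0 ≤ (p - l) * (θ * (s11 * r ^ 2 +
        2 * s12 * r * (1 - r) + s22 * (1 - r) ^ 2) - (W1 * r + W2 * (1 - r))) :=
      mul_nonneg (by linarith) (by linarith)
    have h5 : 0 ≤ θ * (2 * s12 - s11 - s22) * ((p - l) * (r - p) * (r - l)) := by
      refine mul_nonneg (mul_nonneg hθ (by linarith)) ?_
      exact mul_nonneg (mul_nonneg (by linarith) (by linarith)) (by linarith)
    have h6 : 0 < (r - l) * (θ * (s11 * p ^ 2 + 2 * s12 * p * (1 - p) + s22 * (1 - p) ^ 2) -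
        (W1 * p + W2 * (1 - p))) := by
      rw [e1]
      rcases eq_or_lt_of_le hpr with h7 | h7
      · have : 0 < (p - l) * (θ * (s11 * r ^ 2 +
          2 * s12 * r * (1 - r) + s22 * (1 - r) ^ 2) - (W1 * r + W2 * (1 - r))) :=
          mul_pos (by linarith) (by linarith)
        linarith
      · have : 0 < (r - p) * (θ * (s11 * l ^ 2 + 2 * s12 * l * (1 - l) +
          s22 * (1 - l) ^ 2) - (W1 * l + W2 * (1 - l))) :=
          mul_pos (by linarith) (by linarith)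
        linarith
    by_contra hneg
    have := mul_nonpos_of_nonneg_of_nonpos h8.le (sub_nonpos.2 (not_lt.1 hneg))
    linarith

/-- **Exclusion of an interval of densities.**  `e` = loss from the fibres with more than `k` marks. -/
theorem TC.excl (hN : n + 1 = k + t) {W1 s11 s12 W2 s22 θ e C l r r' : ℝ}
    (h : TC n k t W1 s11 s12 W2 s22)
    (hC : CB (n + 1) (t + 1) (C * ((k + 1).factorial : ℝ) ^ 2)) (hθ : 0 < θ)
    (he0 : 0 ≤ e) (he1 : e < 1) (hl0 : 0 < l) (hr0 : 0 ≤ r') (hrr : r ≤ r' * (1 - e))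
    (hte : t * C ≤ e * (l * θ ^ 2)) (hW1 : 0 ≤ W1) (hW2 : 0 ≤ W2) (hconc : s11 + s22 ≤ 2 * s12)
    (hl : W1 * l + W2 * (1 - l) <
      θ * (1 - e) * (s11 * l ^ 2 + 2 * s12 * l * (1 - l) + s22 * (1 - l) ^ 2))
    (hr : W1 * r' + W2 * (1 - r') <
      θ * (1 - e) * (s11 * r' ^ 2 + 2 * s12 * r' * (1 - r') + s22 * (1 - r') ^ 2)) :
    Excl (n + 1 + 1) t θ l r := by
  intro A hA hc x y ⟨h1, h2⟩
  have hFp : (0 : ℝ) < ((k + 1).factorial : ℝ) := fac_pos (k + 1)
  obtain ⟨A', hA1, hA2, hA3⟩ := exists_move A x y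
  have hA4 : ∀ σ ∈ A', ∀ τ ∈ A', t ≤ ag σ τ := hA3 t hA
  rw [show n + 1 + 1 - t = k + 1 by omega] at hc
  have e0 : ((Pool.EG.thr A x y).card : ℝ) = ((Qs A').card : ℝ) := by
    rw [hA2]
    rfl
  rw [e0] at h1 h2
  have hT := h A' hA4
  have u1 := card_off hN A'
  have u2 := off_le (k := k) A'
  have u3 := hC (Qs A') (Bp k (Ws A')) fun σ hσ τ hτ =>
    (fib A' hA4).cross_big hN hσ (mem_filter.1 hτ).2
  rw [hA1] at u1 u2
  have u1' : (A.card : ℝ) ≤ ((Qs A').card : ℝ) + ((off k A' : ℝ) + t * ((Bp k (Ws A')).card : ℝ)) := by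
    exact_mod_cast u1
  have u2' : ((Qs A').card : ℝ) + (off k A' : ℝ) ≤ (A.card : ℝ) := by exact_mod_cast u2
  have hB0 : (0 : ℝ) ≤ ((Bp k (Ws A')).card : ℝ) := Nat.cast_nonneg _
  have hY0 : (0 : ℝ) ≤ (off k A' : ℝ) := Nat.cast_nonneg _
  obtain ⟨X, hX⟩ : ∃ X : ℝ, X = ((Qs A').card : ℝ) := ⟨_, rfl⟩
  obtain ⟨Y, hY⟩ : ∃ Y : ℝ, Y = (off k A' : ℝ) := ⟨_, rfl⟩
  obtain ⟨S, hS⟩ : ∃ S : ℝ, S = (A.card : ℝ) := ⟨_, rfl⟩
  obtain ⟨D, hD⟩ : ∃ D : ℝ, D = ((Bp k (Ws A')).card : ℝ) := ⟨_, rfl⟩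
  obtain ⟨F, hF⟩ : ∃ F : ℝ, F = ((k + 1).factorial : ℝ) := ⟨_, rfl⟩
  rw [← hX, ← hY, ← hF] at hT
  rw [← hX, ← hY, ← hS, ← hD] at u1'
  rw [← hX, ← hY, ← hS] at u2'
  rw [← hX, ← hD, ← hF] at u3
  rw [← hX, ← hS] at h1 h2
  rw [← hF, ← hS] at hc
  rw [← hY] at hY0
  rw [← hD] at hB0
  rw [← hF] at hFp
  clear hX hY hS hD hF e0
  have hS0 : 0 < S := lt_of_lt_of_le (mul_pos hθ hFp) hc
  have hX0 : 0 < X := lt_of_lt_of_le (mul_pos hl0 hS0) h1
  have htB : t * D ≤ e * S := by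
    have k1 : t * (X * D) ≤ t * (C * F ^ 2) := mul_le_mul_of_nonneg_left u3 (Nat.cast_nonneg t)
    have k2 : t * C * F ^ 2 ≤ e * (l * θ ^ 2) * F ^ 2 :=
      mul_le_mul_of_nonneg_right hte (sq_nonneg F)
    have k3 : (θ * F) ^ 2 ≤ S ^ 2 := pow_le_pow_left₀ (mul_nonneg hθ.le hFp.le) hc 2
    have k4 : e * l * (θ * F) ^ 2 ≤ e * l * S ^ 2 :=
      mul_le_mul_of_nonneg_left k3 (mul_nonneg he0 hl0.le)
    have k5 : e * S * (l * S) ≤ e * S * X :=
      mul_le_mul_of_nonneg_left h1 (mul_nonneg he0 hS0.le)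
    have k6 : X * (t * D) ≤ X * (e * S) := by
      calc X * (t * D) = t * (X * D) := by ring
        _ ≤ t * (C * F ^ 2) := k1
        _ = t * C * F ^ 2 := by ring
        _ ≤ e * (l * θ ^ 2) * F ^ 2 := k2
        _ = e * l * (θ * F) ^ 2 := by ring
        _ ≤ e * l * S ^ 2 := k4
        _ = e * S * (l * S) := by ring
        _ ≤ e * S * X := k5
        _ = X * (e * S) := by ring
    exact le_of_mul_le_mul_left k6 hX0
  have hT1 : (1 - e) * S ≤ X + Y := by linarith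
  have he2 : 0 < 1 - e := by linarith
  have hT0 : 0 < X + Y := lt_of_lt_of_le (mul_pos he2 hS0) hT1
  obtain ⟨T, hTd⟩ : ∃ T : ℝ, T = X + Y := ⟨_, rfl⟩
  obtain ⟨p, hp⟩ : ∃ p : ℝ, p = X / T := ⟨_, rfl⟩
  rw [← hTd] at hT1 hT0
  have hXp : X = p * T := by rw [hp, div_mul_cancel₀ _ hT0.ne']
  have hYp : Y = (1 - p) * T := by
    have : Y = T - X := by linarith
    rw [this, sub_mul, one_mul, ← hXp]
  have hlp : l ≤ p := by
    rw [hp, le_div_iff₀ hT0]
    have : l * T ≤ l * S := mul_le_mul_of_nonneg_left (by linarith) hl0.le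
    linarith
  have hpr : p ≤ r' := by
    rw [hp, div_le_iff₀ hT0]
    calc X ≤ r * S := h2
      _ ≤ r' * (1 - e) * S := mul_le_mul_of_nonneg_right hrr hS0.le
      _ = r' * ((1 - e) * S) := by ring
      _ ≤ r' * T := mul_le_mul_of_nonneg_left hT1 hr0
  have hmain := interval (mul_nonneg hθ.le he2.le) hconc hlp hpr hl hr
  obtain ⟨q, hq⟩ : ∃ q : ℝ, q = s11 * p ^ 2 + 2 * s12 * p * (1 - p) + s22 * (1 - p) ^ 2 := ⟨_, rfl⟩
  obtain ⟨L, hL⟩ : ∃ L : ℝ, L = W1 * p + W2 * (1 - p) := ⟨_, rfl⟩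
  rw [← hq, ← hL] at hmain
  have hp0 : 0 ≤ p := hl0.le.trans hlp
  have hp1 : 0 ≤ 1 - p := by
    have : 0 ≤ (1 - p) * T := by rw [← hYp]; exact hY0
    by_contra hneg
    have := mul_neg_of_neg_of_pos (not_le.1 hneg) hT0
    linarith
  have hL0 : 0 ≤ L := by
    rw [hL]
    exact add_nonneg (mul_nonneg hW1 hp0) (mul_nonneg hW2 hp1)
  have hq0 : 0 < q := by
    by_contra hneg
    have := mul_nonpos_of_nonneg_of_nonpos (mul_nonneg hθ.le he2.le) (not_lt.1 hneg)
    linarith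
  have e2 : W1 * X + W2 * Y = T * L := by rw [hXp, hYp, hL]; ring
  have e3 : s11 * X ^ 2 + 2 * s12 * X * Y + s22 * Y ^ 2 = T * (T * q) := by
    rw [hXp, hYp, hq]; ring
  rw [e2, e3] at hT
  have k7 : T * (T * q) / F ≤ T * L := by linarith
  rw [div_le_iff₀ hFp] at k7
  have k8 : T * q ≤ L * F := by
    have : T * (T * q) ≤ T * (L * F) := by
      calc T * (T * q) ≤ T * L * F := k7
        _ = _ := by ring
    exact le_of_mul_le_mul_left this hT0
  have k9 : θ * (1 - e) * F * q ≤ T * q := by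
    refine mul_le_mul_of_nonneg_right ?_ hq0.le
    calc θ * (1 - e) * F = (1 - e) * (θ * F) := by ring
      _ ≤ (1 - e) * S := mul_le_mul_of_nonneg_left hc he2.le
      _ ≤ T := hT1
  have k10 : L * F < θ * (1 - e) * q * F := mul_lt_mul_of_pos_right hmain hFp
  have k11 : θ * (1 - e) * q * F = θ * (1 - e) * F * q := by ring
  linarith

end Pool.TW
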